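import Pool.Agent.W475.BG.Stm

set_option autoImplicit false

namespace Pool.Agent.W847.BG

open Complex MeasureTheory Filter Topology
open Pool.Agent.W475.BG
open scoped ComplexConjugate

/-- the Stirling package for a function -/
def P (d c : ℝ) (H : ℂ → ℂ) : Prop := ∃ K T0 : ℝ, 1 ≤ K ∧ 1 ≤ T0 ∧ ∀ t : ℝ, T0 ≤ t →
  H (I * t) ≠ 0 ∧
  ‖logDeriv H (I * t) - ((d * Real.log (t / (2 * Real.pi)) / 2 + c : ℝ) +
    I * (d * Real.pi / 4 : ℝ))‖ ≤ K / t ∧
  Real.exp (-(K * t)) ≤ ‖H (I * t)‖ ∧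
  (∀ u : ℂ, ‖u‖ ≤ t / 8 → 0 < (I * t + u).im ∧ DifferentiableAt ℂ H (I * t + u) ∧
    ‖H (I * t + u)‖ ≤
      ‖H (I * t)‖ * Real.exp (d * Real.log t / 2 * u.re + K * ‖u‖)) ∧
  (∀ u : ℂ, K * ‖u‖ ^ 2 ≤ t →
    ‖H (I * t + u) - H (I * t) * cexp (logDeriv H (I * t) * u)‖ ≤
      K * ‖u‖ ^ 2 / t * ‖H (I * t) * cexp (logDeriv H (I * t) * u)‖) ∧
  ∀ h : ℝ, |h| ≤ t / 16 →
    ‖H (I * t)‖ ≤ ‖H (I * ((t + h : ℝ) : ℂ))‖ * Real.exp (K * |h|) ∧
    ‖H (I * ((t + h : ℝ) : ℂ))‖ ≤ ‖H (I * t)‖ * Real.exp (K * |h|)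

theorem P_mul {d1 c1 d2 c2 : ℝ} {H1 H2 : ℂ → ℂ} (h1 : P d1 c1 H1) (h2 : P d2 c2 H2) :
    P (d1 + d2) (c1 + c2) (fun z => H1 z * H2 z) := by
  obtain ⟨K1, T1, hK1, hT1, h1⟩ := h1
  obtain ⟨K2, T2, hK2, hT2, h2⟩ := h2
  refine ⟨2 * K1 + K2, max T1 T2, by linarith, le_trans hT1 (le_max_left _ _), ?_⟩
  intro t ht
  obtain ⟨a1, a2, a3, a4, a5, a6⟩ := h1 t (le_trans (le_max_left _ _) ht)
  obtain ⟨b1, b2, b3, b4, b5, b6⟩ := h2 t (le_trans (le_max_right _ _) ht)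
  have ht1 : 1 ≤ t := le_trans hT1 (le_trans (le_max_left _ _) ht)
  have ht0 : 0 < t := by linarith
  have z0 : ‖(0 : ℂ)‖ ≤ t / 8 := by rw [norm_zero]; positivity
  have hd1 : DifferentiableAt ℂ H1 (I * t) := by simpa using (a4 0 z0).2.1
  have hd2 : DifferentiableAt ℂ H2 (I * t) := by simpa using (b4 0 z0).2.1
  have hlog : logDeriv (fun z => H1 z * H2 z) (I * t)
      = logDeriv H1 (I * t) + logDeriv H2 (I * t) := logDeriv_mul _ a1 b1 hd1 hd2
  refine ⟨mul_ne_zero a1 b1, ?_, ?_, ?_, ?_, ?_⟩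
  · rw [hlog]
    have e : logDeriv H1 (I * t) + logDeriv H2 (I * t) -
        ((((d1 + d2) * Real.log (t / (2 * Real.pi)) / 2 + (c1 + c2) : ℝ) : ℂ) +
          I * (((d1 + d2) * Real.pi / 4 : ℝ) : ℂ))
        = (logDeriv H1 (I * t) - (((d1 * Real.log (t / (2 * Real.pi)) / 2 + c1 : ℝ) : ℂ) +
          I * ((d1 * Real.pi / 4 : ℝ) : ℂ))) +
          (logDeriv H2 (I * t) - (((d2 * Real.log (t / (2 * Real.pi)) / 2 + c2 : ℝ) : ℂ) +
          I * ((d2 * Real.pi / 4 : ℝ) : ℂ))) := by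
      push_cast
      ring
    rw [e]
    calc _ ≤ _ := norm_add_le _ _
      _ ≤ K1 / t + K2 / t := add_le_add a2 b2
      _ = (K1 + K2) / t := by ring
      _ ≤ (2 * K1 + K2) / t := by
        apply div_le_div_of_nonneg_right _ ht0.le
        linarith
  · rw [norm_mul]
    calc Real.exp (-((2 * K1 + K2) * t)) ≤ Real.exp (-(K1 * t) + -(K2 * t)) := by
          apply Real.exp_le_exp.mpr
          nlinarith
      _ = Real.exp (-(K1 * t)) * Real.exp (-(K2 * t)) := Real.exp_add _ _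
      _ ≤ _ := mul_le_mul a3 b3 (Real.exp_pos _).le (norm_nonneg _)
  · intro u hu
    obtain ⟨p1, p2, p3⟩ := a4 u hu
    obtain ⟨_, q2, q3⟩ := b4 u hu
    refine ⟨p1, p2.mul q2, ?_⟩
    rw [norm_mul, norm_mul]
    have hun : 0 ≤ ‖u‖ := norm_nonneg _
    calc ‖H1 (I * t + u)‖ * ‖H2 (I * t + u)‖
        ≤ (‖H1 (I * t)‖ * Real.exp (d1 * Real.log t / 2 * u.re + K1 * ‖u‖)) *
          (‖H2 (I * t)‖ * Real.exp (d2 * Real.log t / 2 * u.re + K2 * ‖u‖)) :=
          mul_le_mul p3 q3 (norm_nonneg _) (by positivity)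
      _ = ‖H1 (I * t)‖ * ‖H2 (I * t)‖ * Real.exp ((d1 * Real.log t / 2 * u.re + K1 * ‖u‖) +
          (d2 * Real.log t / 2 * u.re + K2 * ‖u‖)) := by
          rw [Real.exp_add (d1 * Real.log t / 2 * u.re + K1 * ‖u‖)
            (d2 * Real.log t / 2 * u.re + K2 * ‖u‖)]
          ring
      _ ≤ ‖H1 (I * t)‖ * ‖H2 (I * t)‖ *
          Real.exp ((d1 + d2) * Real.log t / 2 * u.re + (2 * K1 + K2) * ‖u‖) := by
          apply mul_le_mul_of_nonneg_left _ (by positivity)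
          apply Real.exp_le_exp.mpr
          nlinarith
  · intro u hu
    have hu2 : 0 ≤ ‖u‖ ^ 2 := by positivity
    have hu1 : K1 * ‖u‖ ^ 2 ≤ t := by nlinarith
    have hu3 : K2 * ‖u‖ ^ 2 ≤ t := by nlinarith
    have p := a5 u hu1
    have q := b5 u hu3
    have hlog' : logDeriv (fun z => H1 z * H2 z) (I * t) * u
        = logDeriv H1 (I * t) * u + logDeriv H2 (I * t) * u := by rw [hlog]; ring
    rw [hlog', Complex.exp_add]
    set A := H1 (I * t) * cexp (logDeriv H1 (I * t) * u) with hA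
    set B := H2 (I * t) * cexp (logDeriv H2 (I * t) * u) with hB
    have e1 : H1 (I * t) * H2 (I * t) *
        (cexp (logDeriv H1 (I * t) * u) * cexp (logDeriv H2 (I * t) * u)) = A * B := by
      rw [hA, hB]; ring
    rw [e1]
    clear_value A B
    have e2 : H1 (I * t + u) * H2 (I * t + u) - A * B
        = (H1 (I * t + u) - A) * B + A * (H2 (I * t + u) - B)
          + (H1 (I * t + u) - A) * (H2 (I * t + u) - B) := by ring
    have hx1 : K2 * ‖u‖ ^ 2 / t ≤ 1 := by rw [div_le_one ht0]; exact hu3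
    have hA0 : 0 ≤ ‖A‖ := norm_nonneg _
    have hB0 : 0 ≤ ‖B‖ := norm_nonneg _
    have q' : ‖H2 (I * t + u) - B‖ ≤ ‖B‖ := q.trans (by nlinarith)
    have hk1 : 0 ≤ K1 * ‖u‖ ^ 2 / t := by positivity
    calc ‖H1 (I * t + u) * H2 (I * t + u) - A * B‖
        = ‖(H1 (I * t + u) - A) * B + A * (H2 (I * t + u) - B)
          + (H1 (I * t + u) - A) * (H2 (I * t + u) - B)‖ := by rw [e2]
      _ ≤ ‖(H1 (I * t + u) - A) * B‖ + ‖A * (H2 (I * t + u) - B)‖
          + ‖(H1 (I * t + u) - A) * (H2 (I * t + u) - B)‖ := norm_add₃_le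
      _ = ‖H1 (I * t + u) - A‖ * ‖B‖ + ‖A‖ * ‖H2 (I * t + u) - B‖
          + ‖H1 (I * t + u) - A‖ * ‖H2 (I * t + u) - B‖ := by
          rw [norm_mul, norm_mul, norm_mul]
      _ ≤ (K1 * ‖u‖ ^ 2 / t * ‖A‖) * ‖B‖ + ‖A‖ * (K2 * ‖u‖ ^ 2 / t * ‖B‖)
          + (K1 * ‖u‖ ^ 2 / t * ‖A‖) * ‖B‖ := by
          gcongr
      _ = (2 * K1 + K2) * ‖u‖ ^ 2 / t * (‖A‖ * ‖B‖) := by ring
      _ = (2 * K1 + K2) * ‖u‖ ^ 2 / t * ‖A * B‖ := by rw [norm_mul]
  · intro h hh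
    obtain ⟨p1, p2⟩ := a6 h hh
    obtain ⟨q1, q2⟩ := b6 h hh
    have hh0 : 0 ≤ |h| := abs_nonneg _
    have hexp : Real.exp (K1 * |h|) * Real.exp (K2 * |h|) ≤ Real.exp ((2 * K1 + K2) * |h|) := by
      rw [← Real.exp_add]
      apply Real.exp_le_exp.mpr
      nlinarith
    rw [norm_mul, norm_mul]
    constructor
    · calc ‖H1 (I * t)‖ * ‖H2 (I * t)‖
          ≤ (‖H1 (I * ((t + h : ℝ) : ℂ))‖ * Real.exp (K1 * |h|)) *
            (‖H2 (I * ((t + h : ℝ) : ℂ))‖ * Real.exp (K2 * |h|)) :=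
            mul_le_mul p1 q1 (norm_nonneg _) (by positivity)
        _ = ‖H1 (I * ((t + h : ℝ) : ℂ))‖ * ‖H2 (I * ((t + h : ℝ) : ℂ))‖ *
            (Real.exp (K1 * |h|) * Real.exp (K2 * |h|)) := by ring
        _ ≤ _ := mul_le_mul_of_nonneg_left hexp (by positivity)
    · calc ‖H1 (I * ((t + h : ℝ) : ℂ))‖ * ‖H2 (I * ((t + h : ℝ) : ℂ))‖
          ≤ (‖H1 (I * t)‖ * Real.exp (K1 * |h|)) * (‖H2 (I * t)‖ * Real.exp (K2 * |h|)) :=
            mul_le_mul p2 q2 (norm_nonneg _) (by positivity)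
        _ = ‖H1 (I * t)‖ * ‖H2 (I * t)‖ * (Real.exp (K1 * |h|) * Real.exp (K2 * |h|)) := by ring
        _ ≤ _ := mul_le_mul_of_nonneg_left hexp (by positivity)

theorem P_pow {Q : ℝ} (hQ : 0 < Q) : P 0 (Real.log Q) (fun z => (Q : ℂ) ^ (1 / 2 + z)) := by
  have hQc : (Q : ℂ) ≠ 0 := by exact_mod_cast hQ.ne'
  have hfun : (fun z : ℂ => (Q : ℂ) ^ (1 / 2 + z))
      = fun z => cexp ((Real.log Q : ℂ) * (1 / 2 + z)) := by
    funext z
    rw [Complex.cpow_def_of_ne_zero hQc, Complex.ofReal_log hQ.le]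
  rw [hfun]
  have hder : ∀ z : ℂ, HasDerivAt (fun z : ℂ => cexp ((Real.log Q : ℂ) * (1 / 2 + z)))
      (cexp ((Real.log Q : ℂ) * (1 / 2 + z)) * (Real.log Q : ℂ)) z := by
    intro z
    have h := (((hasDerivAt_id z).const_add (1 / 2 : ℂ)).const_mul (Real.log Q : ℂ)).cexp
    simpa using h
  have hlog : ∀ z : ℂ, logDeriv (fun z : ℂ => cexp ((Real.log Q : ℂ) * (1 / 2 + z))) z
      = (Real.log Q : ℂ) := by
    intro z
    rw [logDeriv_apply, (hder z).deriv]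
    field_simp [Complex.exp_ne_zero]
  have hnorm : ∀ z : ℂ, ‖cexp ((Real.log Q : ℂ) * (1 / 2 + z))‖
      = Real.exp (Real.log Q * (1 / 2 + z.re)) := by
    intro z
    rw [Complex.norm_exp, Complex.re_ofReal_mul]
    congr 2
    simp
  refine ⟨|Real.log Q| + 1, 1, by linarith [abs_nonneg (Real.log Q)], le_rfl, ?_⟩
  intro t ht
  have ht0 : 0 < t := by linarith
  have hl0 : 0 ≤ |Real.log Q| := abs_nonneg _
  have hItre : (I * (t : ℂ)).re = 0 := by simp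
  refine ⟨Complex.exp_ne_zero _, ?_, ?_, ?_, ?_, ?_⟩
  · rw [hlog]
    have : (Real.log Q : ℂ) - (((0 * Real.log (t / (2 * Real.pi)) / 2 + Real.log Q : ℝ) : ℂ) +
        I * ((0 * Real.pi / 4 : ℝ) : ℂ)) = 0 := by
      push_cast
      ring
    rw [this, norm_zero]
    positivity
  · rw [hnorm, hItre]
    apply Real.exp_le_exp.mpr
    have := neg_abs_le (Real.log Q)
    nlinarith
  · intro u hu
    refine ⟨?_, (hder _).differentiableAt, ?_⟩
    · have h1 : |u.im| ≤ ‖u‖ := Complex.abs_im_le_norm u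
      have h2 := neg_abs_le u.im
      have : (I * (t : ℂ) + u).im = t + u.im := by simp
      rw [this]
      linarith
    · rw [hnorm, hnorm, Complex.add_re, hItre, ← Real.exp_add]
      apply Real.exp_le_exp.mpr
      have h1 : |u.re| ≤ ‖u‖ := Complex.abs_re_le_norm u
      have h2 : Real.log Q * u.re ≤ |Real.log Q| * ‖u‖ := by
        calc Real.log Q * u.re ≤ |Real.log Q * u.re| := le_abs_self _
          _ = |Real.log Q| * |u.re| := abs_mul _ _
          _ ≤ _ := mul_le_mul_of_nonneg_left h1 hl0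
      have h3 : 0 ≤ ‖u‖ := norm_nonneg _
      nlinarith
  · intro u _
    rw [hlog]
    have : cexp ((Real.log Q : ℂ) * (1 / 2 + (I * t + u)))
        - cexp ((Real.log Q : ℂ) * (1 / 2 + I * t)) * cexp ((Real.log Q : ℂ) * u) = 0 := by
      rw [← Complex.exp_add, sub_eq_zero]
      congr 1
      ring
    rw [this, norm_zero]
    positivity
  · intro h _
    have h1 : (I * ((t + h : ℝ) : ℂ)).re = 0 := by simp
    rw [hnorm, hnorm, h1, hItre]
    have h2 : 1 ≤ Real.exp ((|Real.log Q| + 1) * |h|) :=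
      Real.one_le_exp (by positivity)
    have h3 := Real.exp_pos (Real.log Q * (1 / 2 + 0))
    constructor <;> nlinarith

theorem P_prod {ι : Type} (s : Finset ι) (H : ι → ℂ → ℂ) (h : ∀ j, P 1 0 (H j)) :
    P (s.card : ℝ) 0 (fun z => ∏ j ∈ s, H j z) := by
  classical
  induction s using Finset.induction_on with
  | empty =>
    have h0 := P_pow (Q := 1) one_pos
    simpa using h0
  | insert a s ha ih =>
    have h1 := P_mul (h a) ih
    have e : (fun z => ∏ j ∈ insert a s, H j z) = fun z => H a z * ∏ j ∈ s, H j z := by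
      funext z
      rw [Finset.prod_insert ha]
    rw [e, Finset.card_insert_of_notMem ha]
    have e2 : ((s.card + 1 : ℕ) : ℝ) = 1 + (s.card : ℝ) := by push_cast; ring
    rw [e2]
    simpa using h1

theorem HH_one (m : ℝ) : HH (one m) = fun z => Gammaℝ (1 / 2 + z + m) := by
  funext z
  simp [HH, one]

/-- task STP -/
theorem stp (D : Dat) (hD : Ok D) (h1 : ∀ m : ℝ, 0 ≤ m → S_STIR (one m)) : S_STIR D := by
  have h2 : ∀ j : Fin D.d, P 1 0 (fun z => Gammaℝ (1 / 2 + z + D.mu j)) := by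
    intro j
    have h := h1 (D.mu j) (hD.hmu j)
    unfold S_STIR be at h
    rw [HH_one] at h
    have e1 : (((one (D.mu j)).d : ℕ) : ℝ) = 1 := by simp [one]
    have e2 : Real.log (one (D.mu j)).Q = 0 := by simp [one]
    rw [e1, e2] at h
    exact h
  have h3 := P_mul (P_pow hD.hQ) (P_prod Finset.univ _ h2)
  rw [Finset.card_univ, Fintype.card_fin, zero_add, add_zero] at h3
  exact h3

end Pool.Agent.W847.BG
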